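import Pool.Agent.U442.TA.AA

set_option autoImplicit false

/-!
# The mean of the indicator of a prime rough part with an error term
-/

open Filter Topology Finset
open scoped Real

namespace Pool.Agent.U442.TA

open Pool.Agent.W66
open Pool.Agent.W66L
open Pool.Agent.H305R2 (roughPart SM SM_pos SMz mem_SMz ZZ VV ZZ_nonneg VV_nonneg)

/-- eventual inequalities between powers of the logarithm and linear functions -/
lemma ev_log (n : ℕ) {c : ℝ} (hc : 0 < c) : ∀ᶠ q : ℕ in atTop, (Real.log q) ^ n ≤ c * q := by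
  have h := (Real.isLittleO_pow_log_id_atTop (n := n)).bound hc
  have h2 := (tendsto_natCast_atTop_atTop (R := ℝ)).eventually h
  filter_upwards [h2] with q hq
  simp only [id, Real.norm_eq_abs] at hq
  have h3 : |(q : ℝ)| = q := abs_of_nonneg (Nat.cast_nonneg q)
  rw [h3] at hq
  exact (le_abs_self _).trans hq

theorem mq_rate {b : ℕ} (hb : 2 ≤ b) : ∃ K : ℝ, 0 < K ∧ ∀ᶠ q : ℕ in atTop,
    |mq b q - Real.exp Real.eulerMascheroniConstant / Real.log b * (Real.log q / q)| ≤
      K * (1 / q) := by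
  obtain ⟨C, hC, hpnt⟩ := Pool.Agent.H381R2.HR.A2 Pool.Agent.H381R2.HR.A1
  obtain ⟨C1, hC1, hV⟩ := Pool.Agent.TH888.R.VV_rate
  obtain ⟨C2, hC2, hZ⟩ := Pool.Agent.TH888.R.ZZ_rate
  set G := Real.exp Real.eulerMascheroniConstant with hG
  have hG0 : 0 < G := Real.exp_pos _
  set lb := Real.log b with hlb
  have hlb0 : 0 < lb := Real.log_pos (by exact_mod_cast hb)
  have hbr : (2 : ℝ) ≤ b := by exact_mod_cast hb
  set ρ := (b.totient : ℝ) / b with hρdef
  have hρ : 0 < ρ := tot_ratio_pos hb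
  set D := 2 * (C2 + 1) / lb with hD
  have hD0 : 0 < D := by positivity
  set K0 := 3 * C1 + G * (4 * (C + 1) / lb + 4 * D) with hK0
  have hK00 : 0 < K0 := by positivity
  refine ⟨K0 / lb + 2 / ρ, by positivity, ?_⟩
  have hqt : Tendsto (fun q : ℕ => (q : ℝ)) atTop atTop := tendsto_natCast_atTop_atTop
  have c1 : ∀ᶠ q : ℕ in atTop, 8 * D ≤ Real.log q :=
    Pool.Agent.H305R2.log_nat_tendsto.eventually_ge_atTop _
  have c2 := ev_log 1 (show (0 : ℝ) < D * lb / 3 by positivity)
  have c3 : ∀ᶠ q : ℕ in atTop, 4 * (C + 1) / lb + 2 / lb ≤ (q : ℝ) := hqt.eventually_ge_atTop _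
  have c4 := ev_log 2 (show (0 : ℝ) < 1 / 2 by norm_num)
  have c5 := ev_log 1 (show (0 : ℝ) < lb / 4 by positivity)
  filter_upwards [c1, c2, c3, c4, c5, eventually_ge_atTop b, eventually_ge_atTop 3] with
    q c1 c2 c3 c4 c5 c6 c7
  rw [pow_one] at c2 c5
  have hq3 : (3 : ℝ) ≤ q := by exact_mod_cast c7
  have hq0 : (0 : ℝ) < q := by linarith
  set l := Real.log q with hl
  have hl1 : 1 < l := by
    rw [hl, Real.lt_log_iff_exp_lt hq0]
    linarith [Real.exp_one_lt_d9]
  have hl0 : 0 < l := by linarith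
  have hlq : l ≤ q := by
    have := Real.log_le_sub_one_of_pos hq0
    rw [hl]; linarith
  set L := lb * q with hL
  have hL0 : 0 < L := by positivity
  have hc3 : 4 * (C + 1) + 2 ≤ L := by
    rw [← add_div, div_le_iff₀ hlb0] at c3
    rw [hL]; linarith
  set δ := D / l with hδd
  have hδ0 : 0 < δ := by positivity
  have hδl : δ * l = D := by rw [hδd]; field_simp
  have hδ8 : δ ≤ 1 / 8 := by
    rw [hδd, div_le_iff₀ hl0]; linarith
  set η := 2 * (C + 1) / L with hηd
  have hη0 : 0 < η := by positivity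
  have hη2 : η ≤ 1 / 2 := by
    rw [hηd, div_le_iff₀ hL0]; linarith
  have hηL : η * L = 2 * (C + 1) := by rw [hηd]; field_simp
  have hbq : (b : ℝ) ^ q = Real.exp L := by
    rw [hL, mul_comm, Real.exp_nat_mul, hlb, Real.exp_log (by linarith)]
  have hX3 : 3 ≤ δ * L := by
    rw [hδd, div_mul_eq_mul_div, le_div_iff₀ hl0, hL]
    nlinarith
  have hδL : L / 2 ≤ (1 - 2 * δ) * L := by nlinarith
  -- the prime number theorem
  have hpx : ∀ x : ℝ, Real.exp ((1 - 2 * δ) * L) ≤ x →
      |(Nat.primeCounting ⌊x⌋₊ : ℝ) * Real.log x - x| ≤ η * x := by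
    intro x hx
    have hx0 : 0 < x := lt_of_lt_of_le (Real.exp_pos _) hx
    have hlx : L / 2 ≤ Real.log x := by
      refine hδL.trans ?_
      rw [Real.le_log_iff_exp_le hx0]; exact hx
    have hlx0 : 0 < Real.log x := by linarith
    have hlx1 : 1 ≤ Real.log x := by linarith
    have hx2 : 2 ≤ x := by
      have h1 := Real.add_one_le_exp (Real.log x)
      rw [Real.exp_log hx0] at h1
      linarith
    have h1 := hpnt x hx2
    have h2 : (Nat.primeCounting ⌊x⌋₊ : ℝ) * Real.log x - x =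
        Real.log x * ((Nat.primeCounting ⌊x⌋₊ : ℝ) - x / Real.log x) := by
      field_simp
    rw [h2, abs_mul, abs_of_pos hlx0]
    calc Real.log x * |(Nat.primeCounting ⌊x⌋₊ : ℝ) - x / Real.log x| ≤
        Real.log x * (C * (x / Real.log x ^ 2)) := mul_le_mul_of_nonneg_left h1 hlx0.le
      _ = C / Real.log x * x := by field_simp
      _ ≤ C / (L / 2) * x := by gcongr
      _ ≤ η * x := by
        refine mul_le_mul_of_nonneg_right ?_ hx0.le
        rw [hηd, div_le_div_iff₀ (by positivity) hL0]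
        nlinarith
  have hup := AA_up hb hδ0 (by linarith) hη0 c6 hX3 (fun x hx => by
    have := (abs_le.1 (hpx x hx)).2
    linarith)
  have hlo := AA_low hb hδ0 (by linarith) hη0 (by linarith) c6 hX3 (by
      rw [hbq]
      have h1 := Real.add_one_le_exp L
      have h2 : 1 / η ≤ L := by
        rw [div_le_iff₀ hη0, mul_comm, hηL]; linarith
      linarith) hη2 (fun x hx => by
    have := (abs_le.1 (hpx x hx)).1
    linarith)
  rw [← hlb, ← hL] at hup hlo
  -- the tail
  set T := Real.exp (-(δ * L / 2)) * ZZ q with hT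
  have hT0 : 0 ≤ T := mul_nonneg (Real.exp_pos _).le (ZZ_nonneg q)
  have hT1 : T ≤ 1 / q := by
    have h1 := hZ q (by omega)
    have h2 : T ≤ Real.exp (-(q / l)) := by
      calc T ≤ Real.exp (-(δ * L / 2)) * Real.exp (C2 * (q / l)) := by
            rw [hT]; exact mul_le_mul_of_nonneg_left h1 (Real.exp_pos _).le
        _ = Real.exp (-(q / l)) := by
            rw [← Real.exp_add]
            congr 1
            rw [hδd, hD, hL]
            field_simp
            ring
    have h3 : Real.exp (-(q / l)) ≤ 1 / q := by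
      rw [Real.exp_neg, ← one_div]
      refine one_div_le_one_div_of_le hq0 ?_
      rw [← Real.log_le_iff_le_exp hq0, ← hl, le_div_iff₀ hl0]
      nlinarith
    exact h2.trans h3
  set U := q * Real.exp (-((1 - δ) * L)) with hU
  have hU0 : 0 ≤ U := by positivity
  have hU1 : U ≤ 1 / q := by
    have h1 : 2 * l ≤ (1 - δ) * L := by
      have h2 : L / 2 ≤ (1 - δ) * L := by nlinarith
      have h3 : 2 * l ≤ L / 2 := by rw [hL]; linarith
      linarith
    have h4 : Real.exp (-((1 - δ) * L)) ≤ 1 / (q : ℝ) ^ 2 := by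
      rw [Real.exp_neg, ← one_div]
      refine one_div_le_one_div_of_le (by positivity) ?_
      rw [← Real.log_le_iff_le_exp (by positivity), Real.log_pow]
      push_cast
      linarith
    calc U ≤ q * (1 / (q : ℝ) ^ 2) := by rw [hU]; exact mul_le_mul_of_nonneg_left h4 hq0.le
      _ = 1 / q := by field_simp
  -- the Euler product
  have hVB : VB b q = VV q * ρ := VB_eq hb c6
  have hVq := hV q (by omega)
  rw [← hl] at hVq
  obtain ⟨hV1, hV2⟩ := abs_le.1 hVq
  have hVV0 : 0 ≤ VV q := VV_nonneg q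
  have htot : (((b ^ q).totient : ℕ) : ℝ) = (b : ℝ) ^ q * ρ := tot_pow hb (by omega)
  have hbq0 : (0 : ℝ) < (b : ℝ) ^ q := by positivity
  have hmq : mq b q = AA b q / ((b : ℝ) ^ q * ρ) := by unfold mq; rw [htot]
  have hρl : l / q = l * (1 / q) := by ring
  -- upper bound
  have hu1 : mq b q ≤ (1 + 2 * η + 4 * δ) * (VV q / L) + T / ρ := by
    rw [hmq, div_le_iff₀ (by positivity)]
    refine hup.trans ?_
    rw [hVB]
    have h1 : (1 + η) / ((1 - 2 * δ) * L) ≤ (1 + 2 * η + 4 * δ) / L := by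
      rw [div_le_div_iff₀ (by
        have : 0 < 1 - 2 * δ := by linarith
        positivity) hL0]
      have h2 : 1 + η ≤ (1 + 2 * η + 4 * δ) * (1 - 2 * δ) := by nlinarith [mul_pos hη0 hδ0, mul_pos hδ0 hδ0]
      nlinarith
    calc (b : ℝ) ^ q * ((1 + η) / ((1 - 2 * δ) * L) * (VV q * ρ) + T) ≤
        (b : ℝ) ^ q * ((1 + 2 * η + 4 * δ) / L * (VV q * ρ) + T) := by gcongr
      _ = _ := by field_simp
  have hl1' : mq b q ≥ (1 - 2 * η) * (VV q / L) - T / ρ - U / ρ := by
    rw [ge_iff_le, hmq, le_div_iff₀ (by positivity)]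
    refine le_trans ?_ hlo
    rw [hVB]
    have h1 : 1 - 2 * η ≤ (1 - η) ^ 2 := by nlinarith [sq_nonneg η]
    have h2 : (1 - η) ^ 2 ≤ 1 := by nlinarith
    have h3 : (1 - η) ^ 2 / L * T ≤ T := by
      have : (1 - η) ^ 2 / L ≤ 1 := by
        rw [div_le_one hL0]; linarith
      nlinarith
    have h4 : (1 - 2 * η) * (VV q * ρ / L) ≤ (1 - η) ^ 2 / L * (VV q * ρ) := by
      have h5 : 0 ≤ VV q * ρ / L := by positivity
      calc (1 - 2 * η) * (VV q * ρ / L) ≤ (1 - η) ^ 2 * (VV q * ρ / L) :=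
            mul_le_mul_of_nonneg_right h1 h5
        _ = _ := by ring
    have e : ((1 - 2 * η) * (VV q / L) - T / ρ - U / ρ) * ((b : ℝ) ^ q * ρ) =
        (b : ℝ) ^ q * ((1 - 2 * η) * (VV q * ρ / L) - T - U) := by field_simp
    rw [e]
    refine mul_le_mul_of_nonneg_left ?_ hbq0.le
    have e2 : (1 - η) ^ 2 / L * (VV q * ρ - T) = (1 - η) ^ 2 / L * (VV q * ρ) - (1 - η) ^ 2 / L * T := by
      ring
    rw [e2]
    linarith
  -- the error terms
  have hηl : η * l ≤ 2 * (C + 1) / lb := by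
    rw [hηd, hL, div_mul_eq_mul_div, div_le_div_iff₀ (by positivity) hlb0]
    have : 2 * (C + 1) * l ≤ 2 * (C + 1) * q := by
      apply mul_le_mul_of_nonneg_left hlq (by linarith)
    nlinarith
  have hvup : (1 + 2 * η + 4 * δ) * VV q - G * l ≤ K0 := by
    have h1 : (1 + 2 * η + 4 * δ) * VV q ≤ (1 + 2 * η + 4 * δ) * (G * l + C1) := by
      apply mul_le_mul_of_nonneg_left (by linarith) (by linarith)
    have h2 : (2 * η + 4 * δ) * C1 ≤ 2 * C1 := by
      apply mul_le_mul_of_nonneg_right (by linarith) hC1.le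
    have h3 : (2 * η + 4 * δ) * (G * l) = G * (2 * (η * l) + 4 * (δ * l)) := by ring
    have h4 : G * (2 * (η * l) + 4 * (δ * l)) ≤ G * (4 * (C + 1) / lb + 4 * D) := by
      apply mul_le_mul_of_nonneg_left _ hG0.le
      rw [hδl]
      have : 4 * (C + 1) / lb = 2 * (2 * (C + 1) / lb) := by ring
      rw [this]
      linarith
    rw [hK0]
    nlinarith
  have hvlow : -K0 ≤ (1 - 2 * η) * VV q - G * l := by
    have h1 : (1 - 2 * η) * (G * l - C1) ≤ (1 - 2 * η) * VV q := by
      apply mul_le_mul_of_nonneg_left (by linarith) (by linarith)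
    have h2 : 0 ≤ 2 * η * C1 := by positivity
    have h3 : 2 * η * (G * l) = G * (2 * (η * l)) := by ring
    have h4 : G * (2 * (η * l)) ≤ G * (4 * (C + 1) / lb) := by
      apply mul_le_mul_of_nonneg_left _ hG0.le
      have : 4 * (C + 1) / lb = 2 * (2 * (C + 1) / lb) := by ring
      rw [this]
      linarith
    have h5 : 0 ≤ G * (4 * D) := by positivity
    rw [hK0]
    nlinarith
  have eM : G / lb * (l / q) = G * l / L := by rw [hL]; field_simp
  have hTρ : T / ρ ≤ 1 / ρ * (1 / q) := by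
    rw [div_eq_mul_one_div, mul_comm]
    exact mul_le_mul_of_nonneg_left hT1 (by positivity)
  have hUρ : U / ρ ≤ 1 / ρ * (1 / q) := by
    rw [div_eq_mul_one_div, mul_comm]
    exact mul_le_mul_of_nonneg_left hU1 (by positivity)
  have eK : K0 / L = K0 / lb * (1 / q) := by rw [hL]; field_simp
  rw [eM, abs_le]
  constructor
  · have h1 : -(K0 / L) ≤ (1 - 2 * η) * (VV q / L) - G * l / L := by
      have : (1 - 2 * η) * (VV q / L) - G * l / L = ((1 - 2 * η) * VV q - G * l) / L := by ring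
      rw [this, neg_eq_neg_one_mul, ← mul_div_assoc]
      apply div_le_div_of_nonneg_right _ hL0.le
      linarith
    rw [eK] at h1
    have h2 : (K0 / lb + 2 / ρ) * (1 / q) = K0 / lb * (1 / q) + (1 / ρ * (1 / q) + 1 / ρ * (1 / q)) := by
      ring
    rw [h2]
    linarith
  · have h1 : (1 + 2 * η + 4 * δ) * (VV q / L) - G * l / L ≤ K0 / L := by
      have : (1 + 2 * η + 4 * δ) * (VV q / L) - G * l / L = ((1 + 2 * η + 4 * δ) * VV q - G * l) / L := by
        ring
      rw [this]
      exact div_le_div_of_nonneg_right hvup hL0.le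
    rw [eK] at h1
    have h2 : (K0 / lb + 2 / ρ) * (1 / q) = K0 / lb * (1 / q) + (1 / ρ * (1 / q) + 1 / ρ * (1 / q)) := by
      ring
    have h3 : 0 ≤ 1 / ρ * (1 / (q : ℝ)) := by positivity
    rw [h2]
    linarith

end Pool.Agent.U442.TA
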